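import Pool.Agent.Work.MP_36fbc5_co.Aut

set_option autoImplicit false

namespace Pool.Agent.Work.MP_36fbc5_co

section family

variable {F K : Type} [Field F] [Field K] [Finite F] [Finite K] (lam : F →+ K)

/-- The ring of multipliers of the kernel of `lam`. -/
def multRing : Subring F where
  carrier := {x | ∀ m, lam m = 0 → lam (x * m) = 0}
  mul_mem' := by
    intro x y hx hy m hm
    rw [mul_assoc]
    exact hx _ (hy _ hm)
  one_mem' := by
    intro m hm
    rw [one_mul, hm]
  add_mem' := by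
    intro x y hx hy m hm
    rw [add_mul, map_add, hx m hm, hy m hm, add_zero]
  zero_mem' := by
    intro m _
    rw [zero_mul, map_zero]
  neg_mem' := by
    intro x hx m hm
    rw [neg_mul, map_neg, hx m hm, neg_zero]

omit [Finite F] [Finite K] in
lemma mem_multRing {x : F} : x ∈ multRing lam ↔ ∀ m, lam m = 0 → lam (x * m) = 0 := Iff.rfl

omit [Finite F] [Finite K] in
lemma mult_congr {r m m' : F} (hr : r ∈ multRing lam) (h : lam m = lam m') :
    lam (r * m) = lam (r * m') := by
  have h1 : lam (m - m') = 0 := by rw [map_sub, h, sub_self]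
  have h2 := hr _ h1
  rwa [mul_sub, map_sub, sub_eq_zero] at h2

omit [Finite K] in
lemma ev_injective {m₀ : F} (hm₀ : lam m₀ ≠ 0) :
    Function.Injective fun r : multRing lam => lam (r.1 * m₀) := by
  intro r r' h
  by_contra hne
  have ht : r.1 - r'.1 ≠ 0 := sub_ne_zero.mpr fun h' => hne (Subtype.ext h')
  have htm : r.1 - r'.1 ∈ multRing lam := sub_mem r.2 r'.2
  have h1 : lam ((r.1 - r'.1) * m₀) = 0 := by
    rw [sub_mul, map_sub, sub_eq_zero]
    exact h
  -- multiplication by `t` is a bijection of the kernel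
  let k : {m : F | lam m = 0} → {m : F | lam m = 0} := fun m => ⟨(r.1 - r'.1) * m.1, htm m.1 m.2⟩
  have hk : Function.Injective k := by
    intro m m' hmm
    have : (r.1 - r'.1) * m.1 = (r.1 - r'.1) * m'.1 := congrArg Subtype.val hmm
    exact Subtype.ext (mul_left_cancel₀ ht this)
  obtain ⟨m, hm⟩ := Finite.injective_iff_surjective.mp hk ⟨(r.1 - r'.1) * m₀, h1⟩
  have : (r.1 - r'.1) * m.1 = (r.1 - r'.1) * m₀ := congrArg Subtype.val hm
  have h2 := mul_left_cancel₀ ht this
  exact hm₀ (h2 ▸ m.2)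

theorem omega_pow (p c : ℕ) [Fact p.Prime] (hK : Nat.card K = p ^ c)
    (hsurj : Function.Surjective lam) (ω : K) (hω : ω ≠ 0) (hlam : ∀ z, lam (z ^ p) = ω * lam z)
    (hR : Nat.card K ≤ Nat.card (multRing lam)) : ω ^ (c * (p - 1)) = 1 := by
  have hp : p.Prime := Fact.out
  obtain ⟨m₀, hm₀⟩ := hsurj 1
  have hinj := ev_injective lam (m₀ := m₀) (by rw [hm₀]; exact one_ne_zero)
  have hbij : Function.Bijective fun r : multRing lam => lam (r.1 * m₀) :=
    (Nat.bijective_iff_injective_and_card _).mpr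
      ⟨hinj, le_antisymm (Nat.card_le_card_of_injective _ hinj) hR⟩
  have hcard : Nat.card (multRing lam) = p ^ c := by
    rw [← hK]
    exact Nat.card_congr (Equiv.ofBijective _ hbij)
  -- every multiplier is fixed by the `c`-th power of the Frobenius
  have hpow : ∀ r ∈ multRing lam, r ^ p ^ c = r := by
    intro r hr
    have hfin : Fintype (multRing lam) := Fintype.ofFinite _
    classical
    let _ : Field (multRing lam) := Fintype.fieldOfDomain (multRing lam)
    have h := FiniteField.pow_card (⟨r, hr⟩ : multRing lam)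
    rw [← Nat.card_eq_fintype_card, hcard] at h
    exact congrArg Subtype.val h
  have hiter : ∀ (j : ℕ) (z : F), lam (z ^ p ^ j) = ω ^ j * lam z := by
    intro j
    induction j with
    | zero => intro z; simp
    | succ j ih =>
      intro z
      rw [pow_succ, pow_mul, hlam, ih, pow_succ']
      ring
  obtain ⟨⟨r₀, hr₀⟩, hr₀'⟩ := hbij.2 (ω ^ c)
  obtain ⟨⟨r₁, hr₁⟩, hr₁'⟩ := hbij.2 ω
  have e0 : lam (r₀ * m₀) = ω ^ c := hr₀'
  have e1 : lam (r₁ * m₀) = ω := hr₁'
  -- (*)
  have hstar : ∀ r ∈ multRing lam, lam (r * (r₀ * m₀)) = ω ^ c * lam (r * m₀) := by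
    intro r hr
    have h1 : lam (m₀ ^ p ^ c) = lam (r₀ * m₀) := by rw [hiter, hm₀, mul_one, e0]
    rw [← mult_congr lam hr h1]
    conv_lhs => rw [← hpow r hr]
    rw [← mul_pow, hiter]
  have hB : ∀ r ∈ multRing lam, lam (r * m₀ ^ p) = lam (r * (r₁ * m₀)) := by
    intro r hr
    apply mult_congr lam hr
    rw [hlam, hm₀, mul_one, e1]
  have h2 : lam (r₀ ^ p * (r₁ * m₀)) = lam (r₁ * (r₀ * m₀)) := by
    rw [← hB _ (pow_mem hr₀ p), ← mul_pow, hlam, e0, hstar r₁ hr₁, e1]
    ring
  have h3 : r₀ ^ p * r₁ = r₁ * r₀ := by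
    have h4 := hinj (a₁ := ⟨r₀ ^ p * r₁, mul_mem (pow_mem hr₀ p) hr₁⟩)
      (a₂ := ⟨r₁ * r₀, mul_mem hr₁ hr₀⟩) (by
        simp only [mul_assoc]
        exact h2)
    exact congrArg Subtype.val h4
  have hr1ne : r₁ ≠ 0 := by
    rintro rfl
    rw [zero_mul, map_zero] at e1
    exact hω e1.symm
  have hr0ne : r₀ ≠ 0 := by
    rintro rfl
    rw [zero_mul, map_zero] at e0
    exact pow_ne_zero c hω e0.symm
  have h5 : r₀ ^ p = r₀ := by
    rw [mul_comm r₁] at h3
    exact mul_right_cancel₀ hr1ne h3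
  have h6 : r₀ ^ (p - 1) = 1 := by
    have h7 : r₀ ^ (p - 1) * r₀ = 1 * r₀ := by
      rw [← pow_succ, Nat.sub_add_cancel hp.one_le, h5, one_mul]
    exact mul_right_cancel₀ hr0ne h7
  have h8 : ∀ j : ℕ, lam (r₀ ^ j * m₀) = ω ^ (c * j) := by
    intro j
    induction j with
    | zero => simp [hm₀]
    | succ j ih =>
      rw [pow_succ, mul_assoc, hstar _ (pow_mem hr₀ j), ih, ← pow_add]
      congr 1
      ring
  rw [← h8, h6, one_mul, hm₀]

/-- In a classical net, the line through two joined points has at least `|K|` points; here this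
gives many multipliers. -/
theorem card_multRing (h : IsClassical (Blocks lam)) :
    Nat.card K ≤ Nat.card (multRing lam) := by
  obtain ⟨E, _, _, d, ℓ, e, hd, hℓ, hb⟩ := h
  -- the size of `E`
  have hEK : Nat.card E = Nat.card K := by
    obtain ⟨H, hH1, hH2, hH3, -⟩ := (hb (Block lam (0, 0))).mp ⟨_, rfl⟩
    have h1 : (H : Set (Fin d → E)).ncard = Nat.card F := by
      rw [hH1, Set.ncard_image_of_injective _ e.injective, block_ncard]
    obtain ⟨h0, hh0⟩ := hH2
    have h2 : (H : Set (Fin d → E)).ncard = Nat.card H.direction := by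
      rw [← Nat.card_coe_set_eq]
      refine Nat.card_congr
        { toFun := fun x => ⟨x.1 -ᵥ h0, AffineSubspace.vsub_mem_direction x.2 hh0⟩
          invFun := fun v => ⟨v.1 +ᵥ h0, AffineSubspace.vadd_mem_of_mem_direction v.2 hh0⟩
          left_inv := fun x => by simp
          right_inv := fun v => by simp }
    have h3 : Nat.card H.direction = Nat.card E ^ Module.finrank E H.direction :=
      Module.natCard_eq_pow_finrank
    have h4 : Nat.card (F × K) = Nat.card (Fin d → E) := Nat.card_congr e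
    rw [Nat.card_prod, Nat.card_fun, Nat.card_fin, ← hH3, pow_succ, ← h3, ← h2, h1] at h4
    have h5 : 0 < Nat.card F := Nat.card_pos
    exact (Nat.eq_of_mul_eq_mul_left h5 h4).symm
  rw [← hEK]
  -- the line
  let w : E → F × K := fun t => e.symm (AffineMap.lineMap (e (0, 0)) (e (1, 0)) t)
  have hw : ∀ t q, Inc lam (0, 0) q → Inc lam (1, 0) q → Inc lam (w t) q := by
    intro t q h1 h2
    obtain ⟨H, hH1, -, -, -⟩ := (hb (Block lam q)).mp ⟨_, rfl⟩
    have h3 : e (0, 0) ∈ H := by
      rw [← SetLike.mem_coe, hH1]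
      exact ⟨_, h1, rfl⟩
    have h4 : e (1, 0) ∈ H := by
      rw [← SetLike.mem_coe, hH1]
      exact ⟨_, h2, rfl⟩
    have h5 : AffineMap.lineMap (e (0, 0)) (e (1, 0)) t ∈ H := AffineMap.lineMap_mem t h3 h4
    rw [← SetLike.mem_coe, hH1] at h5
    obtain ⟨v, hv, hv'⟩ := h5
    have : w t = v := by
      simp only [w]
      rw [← hv', Equiv.symm_apply_apply]
    rw [this]
    exact hv
  have hw2 : ∀ t, (w t).2 = 0 := by
    intro t
    have := hw t (0, 0) (by simp [Inc]) (by simp [Inc])
    simpa [Inc] using this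
  have hw1 : ∀ t, (w t).1 ∈ multRing lam := by
    intro t m hm
    have := hw t (m, 0) (by simp [Inc]) (by simp [Inc, hm])
    simp only [Inc, hw2, add_zero] at this
    exact this.symm
  apply Nat.card_le_card_of_injective (fun t : E => (⟨(w t).1, hw1 t⟩ : multRing lam))
  intro t t' h
  have h1 : (w t).1 = (w t').1 := congrArg Subtype.val h
  have h2 : w t = w t' := Prod.ext h1 ((hw2 t).trans (hw2 t').symm)
  have h3 := e.symm.injective h2
  have h4 : e (0, 0) ≠ e (1, 0) := by
    intro h
    have := e.injective h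
    simp at this
  exact (AffineMap.lineMap_injective E h4) h3

lemma arith (p c : ℕ) (hp : 2 ≤ p) (hc : 2 ≤ c) : c * (p - 1) + 2 ≤ p ^ c := by
  obtain ⟨a, rfl⟩ : ∃ a, p = a + 2 := ⟨p - 2, by omega⟩
  induction c, hc using Nat.le_induction with
  | base =>
    have : a + 2 - 1 = a + 1 := by omega
    rw [this]
    nlinarith
  | succ n hn ih =>
    have : a + 2 - 1 = a + 1 := by omega
    rw [this] at ih ⊢
    rw [pow_succ]
    have h := Nat.mul_le_mul_right (a + 2) ih
    have h2 : (n + 1) * (a + 1) + 2 ≤ (n * (a + 1) + 2) * (a + 2) := by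
      nlinarith [Nat.zero_le (n * (a + 1) * (a + 1)), Nat.zero_le (n * a), Nat.zero_le a]
    exact h2.trans h

theorem not_classical (p c : ℕ) [Fact p.Prime] (hc : 2 ≤ c) (hK : Nat.card K = p ^ c)
    (hsurj : Function.Surjective lam) (ω : K) (hω : ω ≠ 0) (hlam : ∀ z, lam (z ^ p) = ω * lam z)
    (hord : orderOf ω = p ^ c - 1) : ¬ IsClassical (Blocks lam) := by
  intro h
  have hp : p.Prime := Fact.out
  have h1 := omega_pow lam p c hK hsurj ω hω hlam (card_multRing lam h)
  have h2 := orderOf_dvd_of_pow_eq_one h1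
  rw [hord] at h2
  have h3 := arith p c hp.two_le hc
  have h4 : 0 < c * (p - 1) := by
    have := hp.two_le
    apply Nat.mul_pos <;> omega
  have h5 := Nat.le_of_dvd h4 h2
  omega

end family

end Pool.Agent.Work.MP_36fbc5_co
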