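import Pool.Agent.Work.MP_36fbc5_co.Net

set_option autoImplicit false

namespace Pool.Agent.Work.MP_36fbc5_co

/-- The full automorphism group. -/
def autGroup {V : Type} (𝓑 : Set (Set V)) : Subgroup (Equiv.Perm V) where
  carrier := {g | ∀ b, g '' b ∈ 𝓑 ↔ b ∈ 𝓑}
  mul_mem' := by
    intro g h hg hh b
    rw [Equiv.Perm.coe_mul, Set.image_comp, hg, hh]
  one_mem' := by
    intro b
    simp
  inv_mem' := by
    intro _ hg b
    rw [← hg _, ← Set.image_comp, ← Equiv.Perm.coe_mul]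
    simp

theorem autGroup_isAut {V : Type} (𝓑 : Set (Set V)) : IsAutomorphismGroup 𝓑 (autGroup 𝓑) :=
  fun g hg b hb => (hg b).mpr hb

theorem mem_autGroup {V : Type} [Finite V] (𝓑 : Set (Set V)) (g : Equiv.Perm V)
    (h : ∀ b ∈ 𝓑, g '' b ∈ 𝓑) : g ∈ autGroup 𝓑 := by
  intro b
  refine ⟨fun hb => ?_, h b⟩
  let f : 𝓑 → 𝓑 := fun c => ⟨g '' c.1, h c.1 c.2⟩
  have hf : Function.Injective f := by
    intro c c' hcc
    apply Subtype.ext
    have : g '' c.1 = g '' c'.1 := congrArg Subtype.val hcc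
    exact g.injective.image_injective this
  have hs : Function.Surjective f := Finite.injective_iff_surjective.mp hf
  obtain ⟨c, hc⟩ := hs ⟨g '' b, hb⟩
  have : g '' c.1 = g '' b := congrArg Subtype.val hc
  rw [← g.injective.image_injective this]
  exact c.2

section family

variable {F K : Type} [Field F] [Field K] [Finite F] [Finite K] (lam : F →+ K)

theorem mem_aut_of (g : Equiv.Perm (F × K)) (φ : F × K → F × K)
    (h : ∀ v q, Inc lam v q → Inc lam (g v) (φ q)) : g ∈ autGroup (Blocks lam) := by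
  apply mem_autGroup
  rintro _ ⟨q, rfl⟩
  refine ⟨φ q, ?_⟩
  symm
  apply Set.eq_of_subset_of_ncard_le
  · rintro _ ⟨v, hv, rfl⟩
    exact h v q hv
  · rw [Set.ncard_image_of_injective _ g.injective, block_ncard, block_ncard]
  · exact Set.toFinite _

/-- translations -/
def tr (a : F × K) : Equiv.Perm (F × K) := Equiv.addRight a

theorem tr_mem (a : F × K) : tr a ∈ autGroup (Blocks lam) := by
  apply mem_aut_of lam (tr a) (fun q => (q.1, q.2 + a.2 - lam (a.1 * q.1)))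
  intro v q h
  simp only [Inc, tr, Equiv.coe_addRight, Prod.fst_add, Prod.snd_add, add_mul, map_add] at h ⊢
  rw [h]
  ring

/-- shears -/
def shear (n : F) : Equiv.Perm (F × K) where
  toFun v := (v.1, v.2 + lam (v.1 * n))
  invFun v := (v.1, v.2 - lam (v.1 * n))
  left_inv v := by simp
  right_inv v := by simp

theorem shear_mem (n : F) : shear lam n ∈ autGroup (Blocks lam) := by
  apply mem_aut_of lam (shear lam n) (fun q => (q.1 + n, q.2))
  intro v q h
  simp only [Inc] at h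
  simp only [Inc, shear, Equiv.coe_fn_mk, mul_add, map_add]
  rw [h]
  ring

/-- scalings -/
def scale (a : F) (ha : a ≠ 0) : Equiv.Perm (F × K) :=
  Equiv.prodCongr (Equiv.mulLeft₀ a ha) (Equiv.refl K)

theorem scale_mem (a : F) (ha : a ≠ 0) : scale a ha ∈ autGroup (Blocks lam) := by
  apply mem_aut_of lam (scale a ha) (fun q => (a⁻¹ * q.1, q.2))
  intro v q h
  simp only [Inc] at h
  change v.2 = lam ((a * v.1) * (a⁻¹ * q.1)) + q.2
  rw [h]
  congr 2
  field_simp

/-- the Frobenius-type automorphism -/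
noncomputable def frob (p : ℕ) [Fact p.Prime] [CharP F p] (ω : K) (hω : ω ≠ 0) :
    Equiv.Perm (F × K) :=
  Equiv.prodCongr (Equiv.ofBijective (fun x : F => x ^ p)
    (Finite.injective_iff_bijective.mp (frobenius_inj F p))) (Equiv.mulLeft₀ ω hω)

theorem frob_mem (p : ℕ) [Fact p.Prime] [CharP F p] (ω : K) (hω : ω ≠ 0)
    (hlam : ∀ z, lam (z ^ p) = ω * lam z) : frob p ω hω ∈ autGroup (Blocks lam) := by
  apply mem_aut_of lam (frob p ω hω) (fun q => (q.1 ^ p, ω * q.2))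
  intro v q h
  simp only [Inc] at h
  change ω * v.2 = lam (v.1 ^ p * q.1 ^ p) + ω * q.2
  rw [← mul_pow, hlam, h]
  ring

omit [Finite K] in
theorem frob_pow (p : ℕ) [Fact p.Prime] [CharP F p] (ω : K) (hω : ω ≠ 0) (j : ℕ) (y : K) :
    ((frob p ω hω : Equiv.Perm (F × K)) ^ j) (0, y) = (0, ω ^ j * y) := by
  have hp : p ≠ 0 := (Fact.out : p.Prime).ne_zero
  induction j with
  | zero => simp
  | succ j ih =>
    rw [pow_succ', Equiv.Perm.mul_apply, ih]
    simp only [frob, Equiv.prodCongr_apply, Prod.map_apply, Equiv.mulLeft₀_apply,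
      Equiv.ofBijective_apply, zero_pow hp]
    rw [pow_succ', mul_assoc]

theorem base_joined (hsurj : Function.Surjective lam) (u v : F × K) (h : u.1 ≠ v.1) :
    ∃ g ∈ autGroup (Blocks lam), g (0, 0) = u ∧ g (1, 0) = v := by
  have ha : v.1 - u.1 ≠ 0 := sub_ne_zero.mpr (Ne.symm h)
  obtain ⟨z, hz⟩ := hsurj (v.2 - u.2)
  refine ⟨tr u * (shear lam ((v.1 - u.1)⁻¹ * z) * scale (v.1 - u.1) ha),
    mul_mem (tr_mem lam u) (mul_mem (shear_mem lam _) (scale_mem lam _ ha)), ?_, ?_⟩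
  · simp [tr, shear, scale]
  · simp only [Equiv.Perm.mul_apply, tr, shear, scale, Equiv.prodCongr_apply, Prod.map_apply,
      Equiv.mulLeft₀_apply, Equiv.refl_apply, Equiv.coe_fn_mk, Equiv.coe_addRight, mul_one]
    rw [← mul_assoc, mul_inv_cancel₀ ha, one_mul, hz]
    ext <;> simp

theorem base_nonjoined (p : ℕ) [Fact p.Prime] [CharP F p] (ω : K) (hω : ω ≠ 0)
    (hlam : ∀ z, lam (z ^ p) = ω * lam z) (hgen : ∀ y : K, y ≠ 0 → ∃ j : ℕ, ω ^ j = y)
    (u v : F × K) (h1 : u.1 = v.1) (h2 : u ≠ v) :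
    ∃ g ∈ autGroup (Blocks lam), g (0, 0) = u ∧ g (0, 1) = v := by
  have hy : v.2 - u.2 ≠ 0 := by
    rw [sub_ne_zero]
    exact fun h => h2 (Prod.ext h1 h.symm)
  obtain ⟨j, hj⟩ := hgen _ hy
  refine ⟨tr u * (frob p ω hω) ^ j,
    mul_mem (tr_mem lam u) (pow_mem (frob_mem lam p ω hω hlam) j), ?_, ?_⟩
  · rw [Equiv.Perm.mul_apply, frob_pow]
    simp [tr]
  · rw [Equiv.Perm.mul_apply, frob_pow, mul_one, hj]
    simp only [tr, Equiv.coe_addRight]
    ext <;> simp [h1]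

theorem trans_joined (hsurj : Function.Surjective lam) (u v u' v' : F × K)
    (h : Joined (Blocks lam) u v) (h' : Joined (Blocks lam) u' v') :
    ∃ g ∈ autGroup (Blocks lam), g u = u' ∧ g v = v' := by
  obtain ⟨g, hg, hg1, hg2⟩ := base_joined lam hsurj u v ((joined_iff lam hsurj u v).mp h)
  obtain ⟨g', hg', hg1', hg2'⟩ := base_joined lam hsurj u' v' ((joined_iff lam hsurj u' v').mp h')
  have hinv : ∀ x, g⁻¹ (g x) = x := fun x => g.symm_apply_apply x
  refine ⟨g' * g⁻¹, mul_mem hg' (inv_mem hg), ?_, ?_⟩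
  · rw [Equiv.Perm.mul_apply, ← hg1, hinv, hg1']
  · rw [Equiv.Perm.mul_apply, ← hg2, hinv, hg2']

theorem trans_nonjoined (hsurj : Function.Surjective lam) (p : ℕ) [Fact p.Prime] [CharP F p]
    (ω : K) (hω : ω ≠ 0)
    (hlam : ∀ z, lam (z ^ p) = ω * lam z) (hgen : ∀ y : K, y ≠ 0 → ∃ j : ℕ, ω ^ j = y)
    (u v u' v' : F × K) (hne : u ≠ v) (h : ¬ Joined (Blocks lam) u v) (hne' : u' ≠ v')
    (h' : ¬ Joined (Blocks lam) u' v') :
    ∃ g ∈ autGroup (Blocks lam), g u = u' ∧ g v = v' := by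
  rw [joined_iff lam hsurj, not_not] at h h'
  obtain ⟨g, hg, hg1, hg2⟩ := base_nonjoined lam p ω hω hlam hgen u v h hne
  obtain ⟨g', hg', hg1', hg2'⟩ := base_nonjoined lam p ω hω hlam hgen u' v' h' hne'
  have hinv : ∀ x, g⁻¹ (g x) = x := fun x => g.symm_apply_apply x
  refine ⟨g' * g⁻¹, mul_mem hg' (inv_mem hg), ?_, ?_⟩
  · rw [Equiv.Perm.mul_apply, ← hg1, hinv, hg1']
  · rw [Equiv.Perm.mul_apply, ← hg2, hinv, hg2']

end family

end Pool.Agent.Work.MP_36fbc5_co
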