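import Mathlib

set_option autoImplicit false

namespace Pool.Agent.Work.MP_36fbc5_co

/-- Two points of the incidence structure with block set `𝓑` (blocks are sets of points) are
*joined* if they are distinct and some block contains both. -/
def Joined {V : Type} (𝓑 : Set (Set V)) (u v : V) : Prop :=
  u ≠ v ∧ ∃ b ∈ 𝓑, u ∈ b ∧ v ∈ b

/-- The incidence structure with point set `V` and block set `𝓑` is an `(s, r, μ)`-net: there are
`s² μ` points, every block has `s μ` points, and `𝓑` is partitioned into `r` parallel classes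
`C 0, …, C (r-1)`, each of which is a partition of `V`, such that any two blocks from different
parallel classes meet in exactly `μ` points. -/
structure IsNet {V : Type} (𝓑 : Set (Set V)) (s r μ : ℕ) : Prop where
  card_points : Nat.card V = s ^ 2 * μ
  card_block : ∀ b ∈ 𝓑, b.ncard = s * μ
  classes : ∃ C : Fin r → Set (Set V),
    (∀ i j, i ≠ j → Disjoint (C i) (C j)) ∧ (⋃ i, C i) = 𝓑 ∧
    (∀ i, Setoid.IsPartition (C i)) ∧
    ∀ i j, i ≠ j → ∀ b ∈ C i, ∀ c ∈ C j, (b ∩ c).ncard = μ

/-- The block set of the dual structure: its points are the blocks of `𝓑`, and every point `v` of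
`V` gives the dual block of all blocks through `v`. -/
def dual {V : Type} (𝓑 : Set (Set V)) : Set (Set 𝓑) :=
  Set.range fun v : V => {b : 𝓑 | v ∈ (b : Set V)}

/-- Symmetric `(s, μ)`-nets: `(s, s μ, μ)`-nets whose dual is again an `(s, s μ, μ)`-net. -/
structure IsSymmetricNet {V : Type} (𝓑 : Set (Set V)) (s μ : ℕ) : Prop where
  two_le : 2 ≤ s
  one_le : 1 ≤ μ
  three_le : 3 ≤ s * μ
  net : IsNet 𝓑 s (s * μ) μ
  dual_net : IsNet (dual 𝓑) s (s * μ) μ

/-- `G` is an automorphism group: each of its elements is a permutation of the points which maps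
blocks to blocks. -/
def IsAutomorphismGroup {V : Type} (𝓑 : Set (Set V)) (G : Subgroup (Equiv.Perm V)) : Prop :=
  ∀ g ∈ G, ∀ b ∈ 𝓑, g '' b ∈ 𝓑

/-- The hyperplanes of the affine space `AG(d, E)` that are not parallel to the line with
direction vector `ℓ`. -/
def classicalBlocks (E : Type) [Field E] (d : ℕ) (ℓ : Fin d → E) : Set (Set (Fin d → E)) :=
  {b | ∃ H : AffineSubspace E (Fin d → E), (H : Set (Fin d → E)) = b ∧
    (H : Set (Fin d → E)).Nonempty ∧ Module.finrank E H.direction + 1 = d ∧ ℓ ∉ H.direction}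

/-- The structure `(V, 𝓑)` is isomorphic to a classical symmetric net, i.e. to one whose points
are the points of an affine space `AG(d, E)`, `d ≥ 2`, `E` a finite field, and whose blocks are the
hyperplanes of `AG(d, E)` that are not parallel to some fixed line. -/
def IsClassical {V : Type} (𝓑 : Set (Set V)) : Prop :=
  ∃ (E : Type) (_ : Field E) (_ : Finite E) (d : ℕ) (ℓ : Fin d → E) (e : V ≃ (Fin d → E)),
    2 ≤ d ∧ ℓ ≠ 0 ∧ ∀ b : Set V, b ∈ 𝓑 ↔ e '' b ∈ classicalBlocks E d ℓ

end Pool.Agent.Work.MP_36fbc5_co
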