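import Mathlib

set_option autoImplicit false

namespace Pool.Agent.Work.MP_36fbc5_co

open Finset Polynomial

/-- For a finite field `F` of order `p ^ N` and an element `ω` of a finite field `K` of the same
characteristic with `ω ^ N = 1` there is a nonzero additive map `lam : F → K` such that
`lam (z ^ p) = ω * lam z`. -/
theorem exists_lam (p : ℕ) [Fact p.Prime] (F K : Type) [Field F] [Fintype F] [CharP F p]
    [Field K] [CharP K p] (N : ℕ) (hN : 1 ≤ N) (hF : Fintype.card F = p ^ N)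
    (ω : K) (hω : ω ^ N = 1) :
    ∃ lam : F →+ K, lam ≠ 0 ∧ ∀ z, lam (z ^ p) = ω * lam z := by
  classical
  have hp : p.Prime := Fact.out
  let _ : Algebra (ZMod p) F := ZMod.algebra F p
  let _ : Algebra (ZMod p) K := ZMod.algebra K p
  have hω0 : ω ≠ 0 := by
    rintro rfl
    rw [zero_pow (by omega)] at hω
    exact zero_ne_one hω
  obtain ⟨ψ, hψ⟩ : ∃ ψ : Module.Dual (ZMod p) F, ψ 1 ≠ 0 := by
    by_contra h
    push Not at h
    exact one_ne_zero ((Module.forall_dual_apply_eq_zero_iff (ZMod p) (1 : F)).mp h)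
  obtain ⟨χ, hχ⟩ : ∃ χ : Module.Dual (ZMod p) K, χ 1 ≠ 0 := by
    by_contra h
    push Not at h
    exact one_ne_zero ((Module.forall_dual_apply_eq_zero_iff (ZMod p) (1 : K)).mp h)
  let L : F → F →+ K := fun θ => ∑ i ∈ range N, (AddMonoidHom.mulLeft ((ω⁻¹) ^ i)).comp
    ((algebraMap (ZMod p) K).toAddMonoidHom.comp (ψ.toAddMonoidHom.comp
      ((AddMonoidHom.mulLeft θ).comp (iterateFrobenius F p i).toAddMonoidHom)))
  have hL : ∀ θ z, L θ z = ∑ i ∈ range N, (ω⁻¹) ^ i * algebraMap (ZMod p) K (ψ (θ * z ^ p ^ i)) := by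
    intro θ z
    simp only [L, AddMonoidHom.finsetSum_apply]
    refine Finset.sum_congr rfl fun i _ => ?_
    simp [iterateFrobenius_def]
  have hfrob : ∀ θ z, L θ (z ^ p) = ω * L θ z := by
    intro θ z
    rw [hL, hL]
    have h1 : ∀ f : ℕ → K, f N = f 0 → ∑ i ∈ range N, f (i + 1) = ∑ i ∈ range N, f i := by
      intro f hf
      have := Finset.sum_range_succ f N
      rw [Finset.sum_range_succ' f N, hf] at this
      exact add_right_cancel this
    have h2 := h1 (fun i => (ω⁻¹) ^ i * algebraMap (ZMod p) K (ψ (θ * z ^ p ^ i))) (by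
      have hz : z ^ p ^ N = z := by
        rw [← hF]
        exact FiniteField.pow_card z
      simp only [hz, inv_pow, hω, pow_zero, pow_one, inv_one])
    rw [← h2, Finset.mul_sum]
    refine Finset.sum_congr rfl fun i _ => ?_
    rw [← pow_mul, ← pow_succ', pow_succ' ω⁻¹ i, ← mul_assoc, ← mul_assoc,
      mul_inv_cancel₀ hω0, one_mul]
  by_contra hcon
  push Not at hcon
  have hzero : ∀ θ, L θ = 0 := by
    intro θ
    by_contra h
    obtain ⟨z, hz⟩ := hcon (L θ) h
    exact hz (hfrob θ z)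
  -- the polynomial
  let Q : F[X] := ∑ i ∈ range N, C (algebraMap (ZMod p) F (χ ((ω⁻¹) ^ i))) * X ^ (p ^ i)
  have hQeval : ∀ z, Q.eval z = 0 := by
    intro z
    by_contra hne
    have h0 : χ (L (Q.eval z)⁻¹ z) = 0 := by rw [hzero]; simp
    rw [hL, map_sum] at h0
    have h1 : ∀ i ∈ range N, χ ((ω⁻¹) ^ i * algebraMap (ZMod p) K (ψ ((Q.eval z)⁻¹ * z ^ p ^ i)))
        = ψ ((Q.eval z)⁻¹ * (algebraMap (ZMod p) F (χ ((ω⁻¹) ^ i)) * z ^ p ^ i)) := by
      intro i _
      rw [mul_comm ((ω⁻¹) ^ i), ← Algebra.smul_def, map_smul, ← Algebra.smul_def, mul_smul_comm,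
        map_smul, smul_eq_mul, smul_eq_mul, mul_comm]
    rw [Finset.sum_congr rfl h1, ← map_sum, ← Finset.mul_sum] at h0
    have h2 : Q.eval z = ∑ i ∈ range N, algebraMap (ZMod p) F (χ ((ω⁻¹) ^ i)) * z ^ p ^ i := by
      simp [Q, eval_finsetSum]
    rw [← h2, inv_mul_cancel₀ hne] at h0
    exact hψ h0
  have hQ0 : Q = 0 := by
    apply Polynomial.eq_zero_of_natDegree_lt_card_of_eval_eq_zero' Q Finset.univ
      (fun z _ => hQeval z)
    rw [Finset.card_univ, hF]
    refine lt_of_le_of_lt (Polynomial.natDegree_sum_le_of_forall_le (n := p ^ (N - 1)) _ _ ?_) ?_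
    · intro i hi
      refine (Polynomial.natDegree_C_mul_X_pow_le _ _).trans ?_
      apply Nat.pow_le_pow_right hp.pos
      have := Finset.mem_range.mp hi
      omega
    · exact Nat.pow_lt_pow_right hp.one_lt (by omega)
  have hcoeff : Q.coeff 1 = algebraMap (ZMod p) F (χ 1) := by
    simp only [Q, finsetSum_coeff, coeff_C_mul, coeff_X_pow]
    rw [Finset.sum_eq_single 0]
    · simp
    · intro i _ hi
      have : 1 ≠ p ^ i := by
        have := Nat.one_lt_pow hi hp.one_lt
        omega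
      simp [this]
    · intro h
      exact absurd (Finset.mem_range.mpr (by omega)) h
  rw [hQ0, coeff_zero] at hcoeff
  exact hχ ((map_eq_zero_iff _ (algebraMap (ZMod p) F).injective).mp hcoeff.symm)

end Pool.Agent.Work.MP_36fbc5_co
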