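import Pool.Agent.Work.MP_36fbc5_co.Defs

set_option autoImplicit false

namespace Pool.Agent.Work.MP_36fbc5_co

/-- A convenient criterion for being a net. -/
theorem isNet_of_rel {P Q J : Type} (R : P → Q → Prop) (c : Q → J) (s r μ : ℕ)
    (hs : 2 ≤ s) (hμ : 1 ≤ μ)
    (hJ : Nat.card J = r) (hr : r ≠ 0) (hP : Nat.card P = s ^ 2 * μ)
    (hblock : ∀ q, {x | R x q}.ncard = s * μ)
    (hpar : ∀ j x, ∃! q, c q = j ∧ R x q)
    (hint : ∀ q q', c q ≠ c q' → {x | R x q ∧ R x q'}.ncard = μ) :
    IsNet (Set.range fun q => {x | R x q}) s r μ := by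
  have hsμ : μ < s * μ := by nlinarith
  have hset : ∀ {q q' : Q}, {x | R x q} = {x | R x q'} → ∀ x, R x q ↔ R x q' := by
    intro q q' h x
    have := congrArg (fun S => x ∈ S) h
    simpa using this
  refine ⟨hP, ?_, ?_⟩
  · rintro _ ⟨q, rfl⟩
    exact hblock q
  · have hfin : Finite J := Nat.finite_of_card_ne_zero (by rw [hJ]; exact hr)
    obtain ⟨e⟩ : Nonempty (Fin r ≃ J) := ⟨(Finite.equivFinOfCardEq hJ).symm⟩
    refine ⟨fun i => (fun q => {x | R x q}) '' {q | c q = e i}, ?_, ?_, ?_, ?_⟩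
    · intro i j hij
      rw [Set.disjoint_left]
      rintro _ ⟨q, hq, rfl⟩ ⟨q', hq', h⟩
      have hne : c q ≠ c q' := by
        rw [show c q = e i from hq, show c q' = e j from hq']
        exact fun h => hij (e.injective h)
      have h1 := hint q q' hne
      have h2 : {x | R x q ∧ R x q'} = {x | R x q} := by
        ext x
        have h3 : R x q' ↔ R x q := hset h x
        simp [h3]
      rw [h2, hblock] at h1
      omega
    · ext b
      simp only [Set.mem_iUnion, Set.mem_image, Set.mem_range]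
      constructor
      · rintro ⟨i, q, -, rfl⟩
        exact ⟨q, rfl⟩
      · rintro ⟨q, rfl⟩
        exact ⟨e.symm (c q), q, by simp, rfl⟩
    · intro i
      refine ⟨?_, ?_⟩
      · rintro ⟨q, -, h⟩
        have h1 := hblock q
        rw [show {x | R x q} = ∅ from h, Set.ncard_empty] at h1
        omega
      · intro x
        obtain ⟨q, ⟨hq1, hq2⟩, huniq⟩ := hpar (e i) x
        refine ⟨{x | R x q}, ⟨⟨q, hq1, rfl⟩, hq2⟩, ?_⟩
        rintro _ ⟨⟨q', hq', rfl⟩, hx⟩
        rw [huniq q' ⟨hq', hx⟩]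
    · rintro i j hij _ ⟨q, hq, rfl⟩ _ ⟨q', hq', rfl⟩
      have hne : c q ≠ c q' := by
        rw [show c q = e i from hq, show c q' = e j from hq']
        exact fun h => hij (e.injective h)
      exact hint q q' hne

section family

variable {F K : Type} [Field F] [Field K] (lam : F →+ K)

/-- Incidence of the point `(x, y)` with the block `(m, b)`: `y = lam (x m) + b`. -/
def Inc (v q : F × K) : Prop := v.2 = lam (v.1 * q.1) + q.2

/-- The block with parameters `(m, b)`. -/
def Block (q : F × K) : Set (F × K) := {v | Inc lam v q}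

/-- The block set. -/
def Blocks : Set (Set (F × K)) := Set.range (Block lam)

variable [Finite F] [Finite K]

lemma fiber_card (hsurj : Function.Surjective lam) (β : K) :
    {x : F | lam x = β}.ncard * Nat.card K = Nat.card F := by
  classical
  have := Fintype.ofFinite F
  have := Fintype.ofFinite K
  rw [Nat.card_eq_fintype_card, Nat.card_eq_fintype_card]
  have h1 : ∀ γ : K, (Finset.univ.filter fun x : F => lam x = γ).card =
      (Finset.univ.filter fun x : F => lam x = β).card := fun γ =>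
    AddMonoidHom.card_fiber_eq_of_mem_range lam (hsurj γ) (hsurj β)
  have h2 : Fintype.card F = ∑ γ : K, (Finset.univ.filter fun x : F => lam x = γ).card := by
    rw [← Finset.card_univ]
    exact Finset.card_eq_sum_card_fiberwise fun _ _ => Finset.mem_coe.mpr (Finset.mem_univ _)
  rw [h2, Finset.sum_congr rfl fun γ _ => h1 γ, Finset.sum_const, Finset.card_univ, smul_eq_mul,
    mul_comm]
  congr 1
  rw [← Set.ncard_coe_finset]
  congr 1
  ext x
  simp

lemma fiber_card_mul (hsurj : Function.Surjective lam) {a : F} (ha : a ≠ 0) (β : K) :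
    {x : F | lam (x * a) = β}.ncard * Nat.card K = Nat.card F := by
  have h := fiber_card (lam.comp (AddMonoidHom.mulRight a)) (fun β => by
    obtain ⟨z, hz⟩ := hsurj β
    exact ⟨z * a⁻¹, by simp [ha, hz]⟩) β
  simpa using h

omit [Field F] [Field K] [Finite F] [Finite K] in
lemma graph_ncard (f : F → K) : {v : F × K | v.2 = f v.1}.ncard = Nat.card F := by
  rw [← Nat.card_coe_set_eq]
  exact Nat.card_congr
    { toFun := fun v => v.1.1
      invFun := fun x => ⟨(x, f x), rfl⟩
      left_inv := fun v => Subtype.ext (Prod.ext rfl (show f v.1.1 = v.1.2 from v.2.symm))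
      right_inv := fun x => rfl }

lemma block_ncard (q : F × K) : (Block lam q).ncard = Nat.card F :=
  graph_ncard fun x => lam (x * q.1) + q.2

omit [Finite F] [Finite K] in
lemma block_injective (hne : lam ≠ 0) : Function.Injective (Block lam) := by
  rintro ⟨m, b⟩ ⟨m', b'⟩ h
  have h1 : ∀ v : F × K, Inc lam v (m, b) ↔ Inc lam v (m', b') := fun v => by
    have := congrArg (fun S => v ∈ S) h
    simpa [Block] using this
  have h2 := h1 (0, b)
  simp only [Inc, zero_mul, map_zero, zero_add, true_iff] at h2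
  have hb : b = b' := h2
  subst hb
  have h3 : ∀ x : F, lam (x * m) = lam (x * m') := fun x => by
    have := (h1 (x, lam (x * m) + b)).mp rfl
    simp only [Inc] at this
    exact add_right_cancel this
  by_cases hm : m = m'
  · rw [hm]
  · exfalso
    apply hne
    ext z
    have h4 := h3 (z * (m - m')⁻¹)
    have h5 : m - m' ≠ 0 := sub_ne_zero.mpr hm
    rw [← sub_eq_zero, ← map_sub, ← mul_sub, mul_assoc, inv_mul_cancel₀ h5, mul_one] at h4
    simpa using h4

lemma inter_ncard (hsurj : Function.Surjective lam) (q q' : F × K) (h : q.1 ≠ q'.1) :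
    {v | Inc lam v q ∧ Inc lam v q'}.ncard * Nat.card K = Nat.card F := by
  rw [← fiber_card_mul lam hsurj (sub_ne_zero.mpr h) (q'.2 - q.2)]
  congr 1
  rw [← Nat.card_coe_set_eq, ← Nat.card_coe_set_eq]
  refine Nat.card_congr
    { toFun := fun v => ⟨v.1.1, ?_⟩
      invFun := fun x => ⟨(x.1, lam (x.1 * q.1) + q.2), ?_⟩
      left_inv := fun v => ?_
      right_inv := fun x => ?_ }
  · obtain ⟨⟨x, y⟩, h1, h2⟩ := v
    simp only [Inc] at h1 h2
    simp only [Set.mem_ofPred_eq, mul_sub, map_sub]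
    rw [sub_eq_sub_iff_add_eq_add, add_comm q'.2, ← h1, ← h2]
  · have h1 := x.2
    simp only [Set.mem_ofPred_eq, mul_sub, map_sub, sub_eq_sub_iff_add_eq_add] at h1
    refine ⟨rfl, ?_⟩
    simp only [Inc]
    rw [h1, add_comm]
  · obtain ⟨⟨x, y⟩, h1, h2⟩ := v
    simp only [Inc] at h1 h2
    simp [h1]
  · rfl

omit [Finite F] [Finite K] in
/-- Incidence is symmetric up to changing the sign of the second coordinates. -/
lemma inc_symm (v q : F × K) : Inc lam v q ↔ Inc lam (q.1, -q.2) (v.1, -v.2) := by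
  simp only [Inc, mul_comm q.1 v.1]
  constructor <;> intro h
  · rw [h]; ring
  · linear_combination h

lemma inter_ncard' (hsurj : Function.Surjective lam) (v v' : F × K) (h : v.1 ≠ v'.1) :
    {q | Inc lam v q ∧ Inc lam v' q}.ncard * Nat.card K = Nat.card F := by
  rw [← inter_ncard lam hsurj (v.1, -v.2) (v'.1, -v'.2) h]
  congr 1
  rw [← Nat.card_coe_set_eq, ← Nat.card_coe_set_eq]
  refine Nat.card_congr ((Equiv.prodCongr (Equiv.refl F) (Equiv.neg K)).subtypeEquiv ?_)
  intro q
  simp only [Set.mem_ofPred_eq]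
  rw [inc_symm lam v q, inc_symm lam v' q]
  rfl

lemma dualblock_ncard (v : F × K) : {q | Inc lam v q}.ncard = Nat.card F := by
  rw [← block_ncard lam (v.1, -v.2)]
  rw [← Nat.card_coe_set_eq, ← Nat.card_coe_set_eq]
  refine Nat.card_congr ((Equiv.prodCongr (Equiv.refl F) (Equiv.neg K)).subtypeEquiv ?_)
  intro q
  simp only [Set.mem_ofPred_eq]
  rw [inc_symm lam v q]
  rfl

theorem isNet_blocks (s μ : ℕ) (hs : 2 ≤ s) (hμ : 1 ≤ μ) (hK : Nat.card K = s)
    (hF : Nat.card F = s * μ) (hsurj : Function.Surjective lam) :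
    IsNet (Blocks lam) s (s * μ) μ := by
  refine isNet_of_rel (Inc lam) Prod.fst s (s * μ) μ hs hμ hF (by positivity) ?_ ?_ ?_ ?_
  · rw [Nat.card_prod, hF, hK]; ring
  · intro q
    rw [← hF]
    exact block_ncard lam q
  · intro m v
    refine ⟨(m, v.2 - lam (v.1 * m)), ⟨rfl, by simp [Inc]⟩, ?_⟩
    rintro ⟨m', b⟩ ⟨h1, h2⟩
    simp only at h1
    subst h1
    simp only [Inc] at h2
    simp [h2]
  · intro q q' h
    have := inter_ncard lam hsurj q q' h
    rw [hK, hF] at this
    have hs0 : 0 < s := by omega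
    exact Nat.eq_of_mul_eq_mul_left hs0 (by linarith)

theorem isNet_dual (s μ : ℕ) (hs : 2 ≤ s) (hμ : 1 ≤ μ) (hK : Nat.card K = s)
    (hF : Nat.card F = s * μ) (hsurj : Function.Surjective lam) :
    IsNet (dual (Blocks lam)) s (s * μ) μ := by
  have hne : lam ≠ 0 := by
    rintro rfl
    obtain ⟨z, hz⟩ := hsurj 1
    simp at hz
  let e : F × K ≃ Blocks lam := Equiv.ofInjective (Block lam) (block_injective lam hne)
  have he : ∀ (q : F × K) (v : F × K), v ∈ ((e q : Blocks lam) : Set (F × K)) ↔ Inc lam v q :=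
    fun q v => Iff.rfl
  have hcard : ∀ S : Set (Blocks lam), S.ncard = {q | e q ∈ S}.ncard := by
    intro S
    rw [← Nat.card_coe_set_eq, ← Nat.card_coe_set_eq]
    exact (Nat.card_congr (e.subtypeEquiv fun q => Iff.rfl)).symm
  refine isNet_of_rel (fun (b : Blocks lam) (v : F × K) => v ∈ (b : Set (F × K)))
    Prod.fst s (s * μ) μ hs hμ hF (by positivity) ?_ ?_ ?_ ?_
  · rw [← Nat.card_congr e, Nat.card_prod, hF, hK]; ring
  · intro v
    rw [hcard, ← hF]
    exact dualblock_ncard lam v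
  · intro x b
    obtain ⟨q, rfl⟩ := e.surjective b
    refine ⟨(x, lam (x * q.1) + q.2), ⟨rfl, (he _ _).mpr rfl⟩, ?_⟩
    rintro ⟨x', y⟩ ⟨h1, h2⟩
    simp only at h1
    subst h1
    rw [he] at h2
    simp only [Inc] at h2
    simp [h2]
  · intro v v' h
    rw [hcard]
    have := inter_ncard' lam hsurj v v' h
    rw [hK, hF] at this
    have hs0 : 0 < s := by omega
    exact Nat.eq_of_mul_eq_mul_left hs0 (by
      rw [mul_comm]
      exact this)

theorem isSymmetricNet (s μ : ℕ) (hs : 2 ≤ s) (hμ : 1 ≤ μ) (h3 : 3 ≤ s * μ) (hK : Nat.card K = s)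
    (hF : Nat.card F = s * μ) (hsurj : Function.Surjective lam) :
    IsSymmetricNet (Blocks lam) s μ :=
  ⟨hs, hμ, h3, isNet_blocks lam s μ hs hμ hK hF hsurj, isNet_dual lam s μ hs hμ hK hF hsurj⟩

omit [Finite F] [Finite K] in
lemma joined_iff (hsurj : Function.Surjective lam) (u v : F × K) :
    Joined (Blocks lam) u v ↔ u.1 ≠ v.1 := by
  constructor
  · rintro ⟨hne, _, ⟨q, rfl⟩, h1, h2⟩ h
    apply hne
    have h1' : u.2 = lam (u.1 * q.1) + q.2 := h1
    have h2' : v.2 = lam (v.1 * q.1) + q.2 := h2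
    rw [h, ← h2'] at h1'
    exact Prod.ext h h1'
  · intro h
    refine ⟨fun h' => h (by rw [h']), ?_⟩
    obtain ⟨z, hz⟩ := hsurj (u.2 - v.2)
    have hd : u.1 - v.1 ≠ 0 := sub_ne_zero.mpr h
    refine ⟨Block lam (z * (u.1 - v.1)⁻¹, u.2 - lam (u.1 * (z * (u.1 - v.1)⁻¹))), ⟨_, rfl⟩, ?_, ?_⟩
    · simp [Block, Inc]
    · simp only [Block, Inc, Set.mem_ofPred_eq]
      have h1 : lam (u.1 * (z * (u.1 - v.1)⁻¹)) - lam (v.1 * (z * (u.1 - v.1)⁻¹)) = u.2 - v.2 := by
        rw [← map_sub, ← sub_mul, mul_comm z, ← mul_assoc, mul_inv_cancel₀ hd, one_mul, hz]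
      linear_combination h1

end family

end Pool.Agent.Work.MP_36fbc5_co
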